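import Pool.Agent.H42.HB.LpT

/-!
# Row ABS of the board hbe_modules: the absolute value
-/

set_option autoImplicit false

namespace Pool.Agent.H42.HB
open MeasureTheory Set Filter Topology Pool.Agent.H80.HS Pool.Agent.H93.HQ Pool.Agent.H27.HB
open Pool.Agent.H1.HB
open scoped ContDiff ENNReal

/-- the smooth approximation of the absolute value -/
noncomputable def Fe (e s : ℝ) : ℝ := √(s ^ 2 + e ^ 2) - e

/-- its derivative -/
noncomputable def De (e s : ℝ) : ℝ := s / √(s ^ 2 + e ^ 2)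

section
variable {e : ℝ}

theorem rt_pos (he : 0 < e) (s : ℝ) : 0 < √(s ^ 2 + e ^ 2) := Real.sqrt_pos.2 (by positivity)

theorem Fe_zero (he : 0 < e) : Fe e 0 = 0 := by
  unfold Fe
  rw [zero_pow two_ne_zero, zero_add, Real.sqrt_sq he.le, sub_self]

theorem Fe_cd (he : 0 < e) : ContDiff ℝ ∞ (Fe e) := by
  unfold Fe
  refine ContDiff.sub ?_ contDiff_const
  refine ContDiff.sqrt (by fun_prop) fun s => ?_
  positivity

theorem Fe_der (he : 0 < e) (s : ℝ) : HasDerivAt (Fe e) (De e s) s := by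
  have h1 : HasDerivAt (fun s : ℝ => s ^ 2 + e ^ 2) (2 * s) s := by
    simpa using (hasDerivAt_pow 2 s).add_const (e ^ 2)
  have h2 := (h1.sqrt (by positivity)).sub_const e
  have e1 : De e s = 2 * s / (2 * √(s ^ 2 + e ^ 2)) := by
    unfold De
    rw [mul_div_mul_left _ _ two_ne_zero]
  rw [e1]
  exact h2

theorem De_cont (he : 0 < e) : Continuous (De e) := by
  unfold De
  refine Continuous.div continuous_id (by fun_prop) fun s => (rt_pos he s).ne'

theorem abs_le_rt (s : ℝ) : |s| ≤ √(s ^ 2 + e ^ 2) := by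
  apply Real.abs_le_sqrt
  nlinarith [sq_nonneg e]

theorem De_le (he : 0 < e) (s : ℝ) : |De e s| ≤ 1 := by
  unfold De
  rw [abs_div, abs_of_pos (rt_pos he s), div_le_one (rt_pos he s)]
  exact abs_le_rt s

theorem Fe_lip (he : 0 < e) (s t : ℝ) : |Fe e s - Fe e t| ≤ |s - t| := by
  have h1 := rt_pos he s
  have h2 := rt_pos he t
  have h3 : (√(s ^ 2 + e ^ 2)) ^ 2 = s ^ 2 + e ^ 2 := Real.sq_sqrt (by positivity)
  have h4 : (√(t ^ 2 + e ^ 2)) ^ 2 = t ^ 2 + e ^ 2 := Real.sq_sqrt (by positivity)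
  have h5 : |s + t| ≤ √(s ^ 2 + e ^ 2) + √(t ^ 2 + e ^ 2) :=
    (abs_add_le s t).trans (add_le_add (abs_le_rt s) (abs_le_rt t))
  have h6 : (Fe e s - Fe e t) * (√(s ^ 2 + e ^ 2) + √(t ^ 2 + e ^ 2)) = (s - t) * (s + t) := by
    unfold Fe
    linear_combination h3 - h4
  have h7 : |Fe e s - Fe e t| * (√(s ^ 2 + e ^ 2) + √(t ^ 2 + e ^ 2)) =
      |s - t| * |s + t| := by
    rw [← abs_mul, ← h6, abs_mul, abs_of_pos (add_pos h1 h2)]
  have h8 : |Fe e s - Fe e t| * (√(s ^ 2 + e ^ 2) + √(t ^ 2 + e ^ 2)) ≤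
      |s - t| * (√(s ^ 2 + e ^ 2) + √(t ^ 2 + e ^ 2)) := by
    rw [h7]
    exact mul_le_mul_of_nonneg_left h5 (abs_nonneg _)
  exact le_of_mul_le_mul_right h8 (add_pos h1 h2)

theorem Fe_le (he : 0 < e) (s : ℝ) : |Fe e s| ≤ |s| := by
  have := Fe_lip he s 0
  rwa [Fe_zero he, sub_zero, sub_zero] at this

theorem Fe_nonneg (he : 0 < e) (s : ℝ) : 0 ≤ Fe e s := by
  unfold Fe
  have : e ≤ √(s ^ 2 + e ^ 2) := Real.le_sqrt_of_sq_le (by nlinarith [sq_nonneg s])
  linarith

theorem Fe_abs (he : 0 < e) (s : ℝ) : ‖Fe e s - |s|‖ ≤ |s| := by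
  have h1 := Fe_le he s
  have h2 := Fe_nonneg he s
  rw [abs_of_nonneg h2] at h1
  rw [Real.norm_eq_abs, abs_le]
  constructor <;> linarith [abs_nonneg s]

theorem De_sign (he : 0 < e) (s : ℝ) : |De e s - Real.sign s| ≤ 1 := by
  have h1 := abs_le.1 (De_le he s)
  rcases lt_trichotomy s 0 with hs | hs | hs
  · have h2 : De e s ≤ 0 := div_nonpos_of_nonpos_of_nonneg hs.le (rt_pos he s).le
    rw [Real.sign_of_neg hs, abs_le]
    constructor <;> linarith
  · rw [hs, Real.sign_zero]
    unfold De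
    simp
  · have h2 : 0 ≤ De e s := div_nonneg hs.le (rt_pos he s).le
    rw [Real.sign_of_pos hs, abs_le]
    constructor <;> linarith

end

theorem Fe_lim {ε : ℕ → ℝ} (hε : Tendsto ε atTop (𝓝 0)) (s : ℝ) :
    Tendsto (fun m => Fe (ε m) s) atTop (𝓝 |s|) := by
  have h1 : Continuous fun e : ℝ => √(s ^ 2 + e ^ 2) - e := by fun_prop
  have h2 := (h1.tendsto 0).comp hε
  have e1 : √(s ^ 2 + (0 : ℝ) ^ 2) - 0 = |s| := by
    rw [zero_pow two_ne_zero, add_zero, Real.sqrt_sq_eq_abs, sub_zero]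
  rw [e1] at h2
  exact h2

theorem De_lim {ε : ℕ → ℝ} (hε : Tendsto ε atTop (𝓝 0)) (s : ℝ) :
    Tendsto (fun m => De (ε m) s) atTop (𝓝 (Real.sign s)) := by
  rcases eq_or_ne s 0 with hs | hs
  · rw [hs, Real.sign_zero]
    have : (fun m => De (ε m) 0) = fun _ => 0 := by
      funext m
      unfold De
      rw [zero_div]
    rw [this]
    exact tendsto_const_nhds
  · have h1 : Continuous fun e : ℝ => √(s ^ 2 + e ^ 2) := by fun_prop
    have h2 := (h1.tendsto 0).comp hε
    have e1 : √(s ^ 2 + (0 : ℝ) ^ 2) = |s| := by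
      rw [zero_pow two_ne_zero, add_zero, Real.sqrt_sq_eq_abs]
    rw [e1] at h2
    have h3 := (tendsto_const_nhds (x := s)).div h2 (abs_ne_zero.2 hs)
    have e2 : Real.sign s = s / |s| := by
      rcases lt_or_gt_of_ne hs with h | h
      · rw [Real.sign_of_neg h, abs_of_neg h, div_neg, div_self h.ne]
      · rw [Real.sign_of_pos h, abs_of_pos h, div_self h.ne']
    rw [e2]
    exact h3

theorem cl_F (hHGA : T_HGA) {n : ℕ} {p : ℝ} (h1 : 1 < p) (h2 : p < 2 * n + 2) {u : H n → ℝ}
    {g : H n → G n} (hcl : Cl p u g) {e : ℝ} (he : 0 < e) :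
    Cl p (fun z => Fe e (u z)) (fun z => De e (u z) • g z) := by
  obtain ⟨a1, a2, φ, a3, a4, a5⟩ := hcl
  have hp : 1 ≤ p := h1.le
  have hq : 1 ≤ ps n p := ps_ge h1 h2
  obtain ⟨σ, hσ, hae⟩ := subseq hq (fun k => tst_memLp (a3 k) _) a1 a4
  have b4 := a4.comp hσ.tendsto_atTop
  have b5 := a5.comp hσ.tendsto_atTop
  have hFc := (Fe_cd he).continuous
  have hDc := De_cont he
  have hFu : MemLp (fun z => Fe e (u z)) (ENNReal.ofReal (ps n p)) :=
    a1.of_le (hFc.comp_aestronglyMeasurable a1.1) (Eventually.of_forall fun z => Fe_le he (u z))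
  have hDm : AEStronglyMeasurable (fun z => De e (u z)) (volume : Measure (H n)) :=
    hDc.comp_aestronglyMeasurable a1.1
  have hDg : MemLp (fun z => De e (u z) • g z) (ENNReal.ofReal p) :=
    memLp_smul a2 hDm 1 fun z => De_le he (u z)
  have ht : ∀ k, Tst (fun z => Fe e (φ (σ k) z)) := fun k =>
    ⟨(Fe_cd he).comp (a3 (σ k)).1, (a3 (σ k)).2.comp_left (Fe_zero he)⟩
  refine ⟨hFu, hDg, fun k z => Fe e (φ (σ k) z), ht, ?_, ?_⟩
  · have c1 := (NN_tendsto hq fun k => (tst_memLp (a3 (σ k)) _).sub a1).1 b4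
    refine (NN_tendsto hq fun k => (tst_memLp (ht k) _).sub hFu).2
      (squeeze_zero (fun k => NN_nonneg _) (fun k => ?_) c1)
    exact NN_mono ((tst_memLp (a3 (σ k)) _).sub a1) fun z => Fe_lip he _ _
  · have c1 := (NN_tendsto hp fun k => (tst_memLp_hg (a3 (σ k)) _).sub a2).1 b5
    have hDk : ∀ k, Continuous fun z => De e (φ (σ k) z) := fun k =>
      hDc.comp (a3 (σ k)).1.continuous
    have m2 : ∀ k, MemLp (fun z => (De e (φ (σ k) z) - De e (u z)) • g z) (ENNReal.ofReal p) :=
      fun k => memLp_smul a2 ((hDk k).aestronglyMeasurable.sub hDm) 2 fun z => by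
        have d1 := abs_le.1 (De_le he (φ (σ k) z))
        have d2 := abs_le.1 (De_le he (u z))
        rw [abs_le]
        constructor <;> linarith
    have m1 : ∀ k, MemLp (fun z => De e (φ (σ k) z) • (hg (φ (σ k)) z - g z))
        (ENNReal.ofReal p) := fun k =>
      memLp_smul ((tst_memLp_hg (a3 (σ k)) _).sub a2) (hDk k).aestronglyMeasurable 1
        fun z => De_le he _
    have c2 : Tendsto (fun k => NN volume p fun z => (De e (φ (σ k) z) - De e (u z)) • g z)
        atTop (𝓝 0) := by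
      refine (NN_tendsto hp m2).1 ?_
      refine dom_zero (b := fun z => 2 * ‖g z‖) hp ((a2.norm).const_mul 2) (fun k => (m2 k).1) ?_ ?_
      · intro k z
        rw [norm_smul, Real.norm_eq_abs]
        refine mul_le_mul_of_nonneg_right ?_ (norm_nonneg _)
        have d1 := abs_le.1 (De_le he (φ (σ k) z))
        have d2 := abs_le.1 (De_le he (u z))
        rw [abs_le]
        constructor <;> linarith
      · filter_upwards [hae] with z hz
        have d1 := ((hDc.tendsto (u z)).comp hz).sub_const (De e (u z))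
        rw [sub_self] at d1
        have d2 := d1.smul_const (g z)
        rw [zero_smul] at d2
        exact d2
    refine (NN_tendsto hp fun k => (tst_memLp_hg (ht k) _).sub hDg).2
      (squeeze_zero (fun k => NN_nonneg _) (fun k => ?_) (by
        have := c1.add c2
        rwa [add_zero] at this))
    have e1 : (hg (fun z => Fe e (φ (σ k) z)) - fun z => De e (u z) • g z) =
        (fun z => De e (φ (σ k) z) • (hg (φ (σ k)) z - g z)) +
          fun z => (De e (φ (σ k) z) - De e (u z)) • g z := by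
      funext z
      have hd : DifferentiableAt ℝ (φ (σ k)) z :=
        ((a3 (σ k)).1.differentiable (by simp)).differentiableAt
      have f1 := (hHGA n (φ (σ k)) (φ (σ k)) z hd hd).2.2.1 (Fe e) (De e (φ (σ k) z))
        (Fe_der he _)
      simp only [Pi.sub_apply, Pi.add_apply]
      rw [f1, smul_sub, sub_smul]
      abel
    rw [e1]
    refine (NN_add hp (m1 k) (m2 k)).trans (add_le_add_left ?_ _)
    refine NN_mono ((tst_memLp_hg (a3 (σ k)) _).sub a2) fun z => ?_
    rw [norm_smul, Real.norm_eq_abs]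
    exact mul_le_of_le_one_left (norm_nonneg _) (De_le he _)

/-- ABS: the absolute value. -/
theorem pf_ABS (hHGA : T_HGA) (_hHGC : T_HGC) (hCLC : T_CLC) (_hCLT : T_CLT) : T_ABS := by
  intro n hn p h1 h2 u g hcl
  have hp : 1 ≤ p := h1.le
  have hq : 1 ≤ ps n p := ps_ge h1 h2
  have a1 := hcl.1
  have a2 := hcl.2.1
  have he : ∀ m : ℕ, (0 : ℝ) < 1 / ((m : ℝ) + 1) := fun m => by positivity
  have hε : Tendsto (fun m : ℕ => 1 / ((m : ℝ) + 1)) atTop (𝓝 0) :=
    tendsto_one_div_add_atTop_nhds_zero_nat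
  have hv := fun m => cl_F hHGA h1 h2 hcl (he m)
  have hsm : AEStronglyMeasurable (fun z => Real.sign (u z) • g z) (volume : Measure (H n)) := by
    refine aestronglyMeasurable_of_tendsto_ae atTop (fun m => (hv m).2.1.1)
      (Eventually.of_forall fun z => ?_)
    exact (De_lim hε (u z)).smul_const (g z)
  have hsg : MemLp (fun z => Real.sign (u z) • g z) (ENNReal.ofReal p) := by
    refine a2.of_le hsm (Eventually.of_forall fun z => ?_)
    rw [norm_smul]
    refine mul_le_of_le_one_left (norm_nonneg _) ?_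
    rcases Real.sign_apply_eq (u z) with h | h | h <;> rw [h] <;> norm_num
  have hab : MemLp (fun z => |u z|) (ENNReal.ofReal (ps n p)) := a1.norm
  refine (hCLC n hn p h1 h2).2 _ _ (fun m z => Fe (1 / ((m : ℝ) + 1)) (u z))
    (fun m z => De (1 / ((m : ℝ) + 1)) (u z) • g z) hv hab hsg ?_ ?_
  · refine dom_zero (b := fun z => |u z|) hq hab (fun m => ((hv m).1.sub hab).1) ?_ ?_
    · intro m z
      exact Fe_abs (he m) (u z)
    · refine Eventually.of_forall fun z => ?_
      have := (Fe_lim hε (u z)).sub_const |u z|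
      rwa [sub_self] at this
  · refine dom_zero (b := fun z => ‖g z‖) hp a2.norm (fun m => ((hv m).2.1.sub hsg).1) ?_ ?_
    · intro m z
      rw [← sub_smul, norm_smul, Real.norm_eq_abs]
      exact mul_le_of_le_one_left (norm_nonneg _) (De_sign (he m) _)
    · refine Eventually.of_forall fun z => ?_
      have := ((De_lim hε (u z)).sub_const (Real.sign (u z))).smul_const (g z)
      rw [sub_self, zero_smul] at this
      refine this.congr fun m => ?_
      rw [sub_smul]

end Pool.Agent.H42.HB
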