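import Pool.Agent.H42.HB.LpT
import Pool.Agent.H27.HB.TD

/-!
# Row CUT of the board hbe_modules: smooth functions of finite energy
-/

set_option autoImplicit false

namespace Pool.Agent.H42.HB
open MeasureTheory Set Filter Topology Pool.Agent.H80.HS Pool.Agent.H93.HQ Pool.Agent.H27.HB
open Pool.Agent.H1.HB
open scoped ContDiff ENNReal

/-- the scaled cutoff function -/
theorem cut_fun (hACV : T_ACV) (hACT : T_ACT) {n : ℕ} (hn : 1 ≤ n) {p : ℝ} (h1 : 1 < p)
    (h2 : p < 2 * n + 2) {χ : H n → ℝ} (hχ : Tst χ) {r : ℝ} (hr : 0 < r) :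
    Tst (fun z => χ (dil r z)) ∧ (∀ z, hg (fun z => χ (dil r z)) z = r • hg χ (dil r z)) ∧
      ∫ z, ‖hg (fun z => χ (dil r z)) z‖ ^ (2 * (n : ℝ) + 2) = ∫ z, ‖hg χ z‖ ^ (2 * (n : ℝ) + 2) := by
  have e0 : ∀ z : H n, mul 0 z = z := fun z => by
    unfold mul
    refine Prod.ext ?_ (Prod.ext ?_ ?_) <;> simp
  set c : ℝ := r ^ ((2 * n + 2 - p) / p) with hc
  have hc0 : 0 < c := Real.rpow_pos_of_pos hr _
  have eact : act p 0 r χ = fun z => c * χ (dil r z) := by
    funext z
    unfold act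
    rw [e0]
  have hA := hACT n hn p h1 h2 0 r hr χ hχ
  have e1 : (fun z => χ (dil r z)) = fun z => c⁻¹ * act p 0 r χ z := by
    rw [eact]
    funext z
    rw [← mul_assoc, inv_mul_cancel₀ hc0.ne', one_mul]
  have hT : Tst (fun z => χ (dil r z)) := by
    rw [e1]
    exact ⟨contDiff_const.mul hA.1.1, hA.1.2.mul_left⟩
  have hG : ∀ z, hg (fun z => χ (dil r z)) z = r • hg χ (dil r z) := by
    intro z
    have hd : DifferentiableAt ℝ (fun z => χ (dil r z)) z :=
      (hT.1.differentiable (by simp)).differentiableAt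
    have f1 : hg (act p 0 r χ) z = c • hg (fun z => χ (dil r z)) z := by
      rw [eact]
      unfold hg
      ext i
      rcases i with j | j
      · show X (fun z => c * χ (dil r z)) j z = c • X (fun z => χ (dil r z)) j z
        unfold X
        rw [(hd.hasFDerivAt.const_mul c).fderiv]
        rfl
      · show Y (fun z => c * χ (dil r z)) j z = c • Y (fun z => χ (dil r z)) j z
        unfold Y
        rw [(hd.hasFDerivAt.const_mul c).fderiv]
        rfl
    have f2 : actg p 0 r (hg χ) z = (c * r) • hg χ (dil r z) := by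
      unfold actg
      rw [e0]
    rw [hA.2, f2, mul_smul] at f1
    exact (smul_right_injective _ hc0.ne' f1).symm
  refine ⟨hT, hG, ?_⟩
  have f3 := (hACV n hn p h1 h2 0 r hr).1 fun z => ‖hg χ z‖ ^ (2 * (n : ℝ) + 2)
  rw [← f3, ← integral_const_mul]
  refine integral_congr_ae (Eventually.of_forall fun z => ?_)
  show ‖hg (fun z => χ (dil r z)) z‖ ^ (2 * (n : ℝ) + 2) =
    r ^ (2 * n + 2) * ‖hg χ (dil r (mul 0 z))‖ ^ (2 * (n : ℝ) + 2)
  rw [hG, e0, norm_smul, Real.norm_of_nonneg hr.le, Real.mul_rpow hr.le (norm_nonneg _)]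
  congr 1
  rw [← Real.rpow_natCast]
  congr 1
  push_cast
  ring

/-- Hoelder's inequality for a scalar times a vector -/
theorem NN_smul {α E : Type} [MeasurableSpace α] {μ : Measure α} [NormedAddCommGroup E]
    [NormedSpace ℝ E] {p q Q : ℝ} (hp : 0 < p) (hq : 0 < q) (hQ : 0 < Q)
    (h : q⁻¹ + Q⁻¹ = p⁻¹) {c : α → ℝ} {f : α → E} (hc : MemLp c (ENNReal.ofReal q) μ)
    (hf : MemLp f (ENNReal.ofReal Q) μ) :
    MemLp (fun z => c z • f z) (ENNReal.ofReal p) μ ∧
      NN μ p (fun z => c z • f z) ≤ NN μ q c * NN μ Q f := by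
  have : ENNReal.HolderTriple (ENNReal.ofReal q) (ENNReal.ofReal Q) (ENNReal.ofReal p) := by
    constructor
    rw [← ENNReal.ofReal_inv_of_pos hq, ← ENNReal.ofReal_inv_of_pos hQ,
      ← ENNReal.ofReal_inv_of_pos hp, ← ENNReal.ofReal_add (by positivity) (by positivity), h]
  have h1 : eLpNorm (c • f) (ENNReal.ofReal p) μ ≤
      eLpNorm c (ENNReal.ofReal q) μ * eLpNorm f (ENNReal.ofReal Q) μ :=
    eLpNorm_smul_le_mul_eLpNorm hf.1 hc.1
  have h2 : eLpNorm c (ENNReal.ofReal q) μ * eLpNorm f (ENNReal.ofReal Q) μ < ⊤ :=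
    ENNReal.mul_lt_top hc.2 hf.2
  refine ⟨⟨hc.1.smul hf.1, lt_of_le_of_lt h1 h2⟩, ?_⟩
  unfold NN
  rw [← ENNReal.toReal_mul]
  exact ENNReal.toReal_mono h2.ne h1

/-- CUT: smooth functions of finite energy. -/
theorem pf_CUT (_hHGA : T_HGA) (_hHGC : T_HGC) (hCHI : T_CHI) (hACV : T_ACV) (hACT : T_ACT) :
    T_CUT := by
  intro n hn p h1 h2 u hu hum hgm
  have hp : 1 ≤ p := h1.le
  have hq : 1 ≤ ps n p := ps_ge h1 h2
  have hQ : (0 : ℝ) < 2 * (n : ℝ) + 2 := by positivity
  have hQ1 : (1 : ℝ) ≤ 2 * (n : ℝ) + 2 := by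
    have : (0 : ℝ) ≤ n := n.cast_nonneg
    linarith
  have hcon : (ps n p)⁻¹ + (2 * (n : ℝ) + 2)⁻¹ = p⁻¹ := by
    unfold ps
    have h3 : (2 * (n : ℝ) + 2 - p) ≠ 0 := by
      have : (0 : ℝ) < 2 * n + 2 - p := by linarith
      exact this.ne'
    have h4 : p ≠ 0 := by linarith
    field_simp
    ring
  obtain ⟨χ, hχ, hχ01, hχ1, hχ0⟩ := hCHI n
  have hr : ∀ m : ℕ, (0 : ℝ) < 1 / ((m : ℝ) + 1) := fun m => by positivity
  have hK := fun m : ℕ => cut_fun hACV hACT hn h1 h2 hχ (hr m)
  set κ : ℕ → H n → ℝ := fun m z => χ (dil (1 / ((m : ℝ) + 1)) z) with hκ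
  have hκt : ∀ m, Tst (κ m) := fun m => (hK m).1
  have hκ01 : ∀ m z, 0 ≤ κ m z ∧ κ m z ≤ 1 := fun m z => hχ01 _
  have hκb : ∀ m z, |κ m z - 1| ≤ 1 := fun m z => by
    have := hκ01 m z
    rw [abs_le]
    constructor <;> linarith
  -- the cutoff is one on large balls
  have hball : ∀ (m : ℕ) (z : H n), N z < (m : ℝ) + 1 → N (dil (1 / ((m : ℝ) + 1)) z) < 1 := by
    intro m z hz
    rw [N_dil (hr m).le, one_div, inv_mul_eq_div, div_lt_one (by positivity)]
    exact hz
  have hev : ∀ z : H n, ∀ᶠ m : ℕ in atTop, N z < (m : ℝ) + 1 := by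
    intro z
    filter_upwards [eventually_ge_atTop ⌈N z⌉₊] with m hm
    have h3 : N z ≤ ⌈N z⌉₊ := Nat.le_ceil _
    have h4 : ((⌈N z⌉₊ : ℕ) : ℝ) ≤ m := by exact_mod_cast hm
    linarith
  have hκ1 : ∀ z : H n, ∀ᶠ m : ℕ in atTop, κ m z = 1 := by
    intro z
    filter_upwards [hev z] with m hm
    exact hχ1 _ (hball m z hm).le
  -- the gradient vanishes there
  have hg0 : ∀ (m : ℕ) (z : H n), N z < (m : ℝ) + 1 → hg (κ m) z = 0 := by
    intro m z hz
    have f1 : hg (κ m) z = (1 / ((m : ℝ) + 1)) • hg χ (dil (1 / ((m : ℝ) + 1)) z) := (hK m).2.1 z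
    rw [f1]
    have f2 : χ =ᶠ[𝓝 (dil (1 / ((m : ℝ) + 1)) z)] fun _ => 1 := by
      have : ∀ᶠ y in 𝓝 (dil (1 / ((m : ℝ) + 1)) z), N y < 1 :=
        continuous_N.continuousAt.eventually_lt_const (hball m z hz)
      filter_upwards [this] with y hy
      exact hχ1 y hy.le
    have f3 : hg χ (dil (1 / ((m : ℝ) + 1)) z) = 0 := by
      unfold hg
      ext i
      rcases i with j | j
      · show X χ j _ = 0
        unfold X
        rw [f2.fderiv_eq]
        simp
      · show Y χ j _ = 0
        unfold Y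
        rw [f2.fderiv_eq]
        simp
    rw [f3, smul_zero]
  have hφ : ∀ m, Tst (fun z => κ m z * u z) := fun m =>
    ⟨(hκt m).1.mul hu, (hκt m).2.mul_right⟩
  refine ⟨hum, hgm, fun m z => κ m z * u z, hφ, ?_, ?_⟩
  · refine dom_zero (b := fun z => |u z|) hq hum.norm
      (fun m => ((tst_memLp (hφ m) _).sub hum).1) ?_ ?_
    · intro m z
      have : κ m z * u z - u z = (κ m z - 1) * u z := by ring
      show ‖κ m z * u z - u z‖ ≤ |u z|
      rw [this, Real.norm_eq_abs, abs_mul]
      exact mul_le_of_le_one_left (abs_nonneg _) (hκb m z)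
    · refine Eventually.of_forall fun z => ?_
      refine tendsto_const_nhds.congr' ?_
      filter_upwards [hκ1 z] with m hm
      show 0 = κ m z * u z - u z
      rw [hm]
      ring
  · have m1 : ∀ m, MemLp (fun z => (κ m z - 1) • hg u z) (ENNReal.ofReal p) := fun m =>
      memLp_smul hgm ((hκt m).1.continuous.sub continuous_const).aestronglyMeasurable 1 (hκb m)
    have c1 : Tendsto (fun m => NN volume p fun z => (κ m z - 1) • hg u z) atTop (𝓝 0) := by
      refine (NN_tendsto hp m1).1 ?_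
      refine dom_zero (b := fun z => ‖hg u z‖) hp hgm.norm (fun m => (m1 m).1) ?_ ?_
      · intro m z
        rw [norm_smul, Real.norm_eq_abs]
        exact mul_le_of_le_one_left (norm_nonneg _) (hκb m z)
      · refine Eventually.of_forall fun z => ?_
        refine tendsto_const_nhds.congr' ?_
        filter_upwards [hκ1 z] with m hm
        rw [hm, sub_self, zero_smul]
    -- the second term
    have hA : ∀ m : ℕ, MeasurableSet {z : H n | (m : ℝ) + 1 ≤ N z} := fun m =>
      measurableSet_le measurable_const continuous_N.measurable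
    have mu : ∀ m : ℕ, MemLp ({z : H n | (m : ℝ) + 1 ≤ N z}.indicator u)
        (ENNReal.ofReal (ps n p)) := fun m => hum.indicator (hA m)
    have e2 : ∀ m : ℕ, (fun z => u z • hg (κ m) z) =
        fun z => {z : H n | (m : ℝ) + 1 ≤ N z}.indicator u z • hg (κ m) z := by
      intro m
      funext z
      by_cases hz : (m : ℝ) + 1 ≤ N z
      · rw [indicator_of_mem (show z ∈ {z : H n | (m : ℝ) + 1 ≤ N z} from hz)]
      · rw [hg0 m z (not_le.1 hz), smul_zero, smul_zero]
    have hH := fun m : ℕ => NN_smul (μ := (volume : Measure (H n))) (by linarith : 0 < p)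
      (by linarith : 0 < ps n p) hQ hcon (mu m) (tst_memLp_hg (hκt m) _)
    have m2 : ∀ m, MemLp (fun z => u z • hg (κ m) z) (ENNReal.ofReal p) := by
      intro m
      rw [e2 m]
      exact (hH m).1
    have hKc : ∀ m, NN volume (2 * (n : ℝ) + 2) (hg (κ m)) =
        NN volume (2 * (n : ℝ) + 2) (hg χ) := by
      intro m
      rw [NN_eq hQ1 (tst_memLp_hg (hκt m) _), NN_eq hQ1 (tst_memLp_hg hχ _)]
      congr 1
      exact (hK m).2.2
    have c3 : Tendsto (fun m : ℕ => NN volume (ps n p)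
        ({z : H n | (m : ℝ) + 1 ≤ N z}.indicator u)) atTop (𝓝 0) := by
      refine (NN_tendsto hq mu).1 ?_
      refine dom_zero (b := fun z => |u z|) hq hum.norm (fun m => (mu m).1) ?_ ?_
      · intro m z
        exact norm_indicator_le_norm_self u z
      · refine Eventually.of_forall fun z => ?_
        refine tendsto_const_nhds.congr' ?_
        filter_upwards [hev z] with m hm
        rw [indicator_of_notMem]
        exact not_le.2 hm
    have c2 : Tendsto (fun m => NN volume p fun z => u z • hg (κ m) z) atTop (𝓝 0) := by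
      have c4 := c3.mul_const (NN volume (2 * (n : ℝ) + 2) (hg χ))
      rw [zero_mul] at c4
      refine squeeze_zero (fun m => NN_nonneg _) (fun m => ?_) c4
      rw [e2 m, ← hKc m]
      exact (hH m).2
    refine (NN_tendsto hp fun m => (tst_memLp_hg (hφ m) _).sub hgm).2
      (squeeze_zero (fun m => NN_nonneg _) (fun m => ?_) (by
        have := c1.add c2
        rwa [add_zero] at this))
    have e1 : (hg (fun z => κ m z * u z) - hg u) =
        (fun z => (κ m z - 1) • hg u z) + fun z => u z • hg (κ m) z := by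
      funext z
      have hd : DifferentiableAt ℝ (κ m) z :=
        ((hκt m).1.differentiable (by simp)).differentiableAt
      have hd2 : DifferentiableAt ℝ u z := (hu.differentiable (by simp)).differentiableAt
      have f1 := (_hHGA n (κ m) u z hd hd2).2.1
      simp only [Pi.sub_apply, Pi.add_apply]
      rw [f1, sub_smul, one_smul]
      abel
    have e3 := NN_add hp (m1 m) (m2 m)
    rw [← e1] at e3
    exact e3

end Pool.Agent.H42.HB
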