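import Pool.Agent.H76.HB.Stmt

/-!
# Removing repetitions
-/

set_option autoImplicit false

open Set Pool.Agent.TK Pool.Agent.ST

namespace Pool.Agent.HB

private lemma ex_zip {x y : List ℕ} (h : x.length = y.length) {a : ℕ} (ha : a ∈ x) :
    ∃ c, (a, c) ∈ x.zip y := by
  induction x generalizing y with
  | nil => simp at ha
  | cons a1 x1 ih =>
    cases y with
    | nil => simp at h
    | cons b1 y1 =>
      rcases List.mem_cons.1 ha with rfl | ha
      · exact ⟨b1, by simp⟩
      · obtain ⟨c, hc⟩ := ih (by simpa using h) ha
        exact ⟨c, by simp [hc]⟩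

private lemma ex_zip' {x y : List ℕ} (h : x.length = y.length) {b : ℕ} (hb : b ∈ y) :
    ∃ c, (c, b) ∈ x.zip y := by
  induction x generalizing y with
  | nil =>
    cases y with
    | nil => simp at hb
    | cons b1 y1 => simp at h
  | cons a1 x1 ih =>
    cases y with
    | nil => simp at h
    | cons b1 y1 =>
      rcases List.mem_cons.1 hb with rfl | hb
      · exact ⟨a1, by simp⟩
      · obtain ⟨c, hc⟩ := ih (by simpa using h) hb
        exact ⟨c, by simp [hc]⟩

private lemma dd (x : List ℕ) : ∀ y : List ℕ, x.length = y.length →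
    (∀ z ∈ x.zip y, ∀ w ∈ x.zip y, (z.1 = w.1 ↔ z.2 = w.2)) →
    x.dedup.length = y.dedup.length ∧ ∀ z, z ∈ x.dedup.zip y.dedup ↔ z ∈ x.zip y := by
  induction x with
  | nil =>
    intro y hy _
    cases y with
    | nil => simp
    | cons b1 y1 => simp at hy
  | cons a x1 ih =>
    intro y hy hp
    cases y with
    | nil => simp at hy
    | cons b y1 =>
      have hl : x1.length = y1.length := by simpa using hy
      rw [List.zip_cons_cons] at hp ⊢
      obtain ⟨h1, h2⟩ := ih y1 hl fun z hz w hw =>
        hp z (List.mem_cons_of_mem _ hz) w (List.mem_cons_of_mem _ hw)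
      by_cases ha : a ∈ x1
      · obtain ⟨c, hc⟩ := ex_zip hl ha
        have h3 : b = c := (hp (a, b) List.mem_cons_self (a, c)
          (List.mem_cons_of_mem _ hc)).1 rfl
        subst h3
        have hb : b ∈ y1 := (List.of_mem_zip hc).2
        rw [List.dedup_cons_of_mem ha, List.dedup_cons_of_mem hb]
        refine ⟨h1, fun z => ?_⟩
        rw [h2, List.mem_cons]
        constructor
        · exact Or.inr
        · rintro (rfl | h)
          · exact hc
          · exact h
      · have hb : b ∉ y1 := by
          intro hb
          obtain ⟨c, hc⟩ := ex_zip' hl hb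
          have h3 : a = c := (hp (a, b) List.mem_cons_self (c, b)
            (List.mem_cons_of_mem _ hc)).2 rfl
          subst h3
          exact ha (List.of_mem_zip hc).1
        rw [List.dedup_cons_of_notMem ha, List.dedup_cons_of_notMem hb]
        refine ⟨by simp [h1], fun z => ?_⟩
        rw [List.zip_cons_cons, List.mem_cons, List.mem_cons, h2]

theorem pf_DDP {C : Type} : DDP C := by
  intro M N x y hl hp
  exact dd x y hl hp.1

end Pool.Agent.HB
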