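import Pool.Agent.H1.HB.CLC

/-!
# Tools for rows ABS and CUT of the board hbe_modules
-/

set_option autoImplicit false

namespace Pool.Agent.H42.HB
open MeasureTheory Set Filter Topology Pool.Agent.H80.HS Pool.Agent.H93.HQ Pool.Agent.H27.HB
open Pool.Agent.H1.HB
open scoped ContDiff ENNReal

section gen
variable {α E F : Type} [MeasurableSpace α] {μ : Measure α} [NormedAddCommGroup E]
  [NormedAddCommGroup F] {p : ℝ}

theorem NN_mono {a : α → E} {b : α → F} (hb : MemLp b (ENNReal.ofReal p) μ)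
    (h : ∀ z, ‖a z‖ ≤ ‖b z‖) : NN μ p a ≤ NN μ p b :=
  ENNReal.toReal_mono hb.2.ne (eLpNorm_mono h)

theorem dom_zero (hp : 1 ≤ p) {h : ℕ → α → E} {b : α → ℝ} (hb : MemLp b (ENNReal.ofReal p) μ)
    (hm : ∀ k, AEStronglyMeasurable (h k) μ) (hle : ∀ k z, ‖h k z‖ ≤ b z)
    (hl : ∀ᵐ z ∂μ, Tendsto (fun k => h k z) atTop (𝓝 0)) :
    Tendsto (fun k => ∫ z, ‖h k z‖ ^ p ∂μ) atTop (𝓝 0) := by
  have hp0 : 0 < p := by linarith
  have e : (0 : ℝ) = ∫ z, (0 : ℝ) ∂μ := by simp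
  rw [e]
  refine tendsto_integral_of_dominated_convergence (fun z => ‖b z‖ ^ p) ?_ ?_ ?_ ?_
  · intro k
    exact ((hm k).norm.aemeasurable.pow_const p).aestronglyMeasurable
  · have := hb.integrable_norm_rpow (by
      rw [Ne, ENNReal.ofReal_eq_zero, not_le]
      exact hp0) ENNReal.ofReal_ne_top
    rwa [ENNReal.toReal_ofReal hp0.le] at this
  · intro k
    refine Eventually.of_forall fun z => ?_
    rw [Real.norm_of_nonneg (Real.rpow_nonneg (norm_nonneg _) _)]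
    exact Real.rpow_le_rpow (norm_nonneg _) ((hle k z).trans (Real.le_norm_self _)) hp0.le
  · filter_upwards [hl] with z hz
    have := hz.norm.rpow_const (p := p) (Or.inr hp0.le)
    rwa [norm_zero, Real.zero_rpow hp0.ne'] at this

theorem subseq (hp : 1 ≤ p) {f : ℕ → α → E} {g : α → E}
    (hf : ∀ k, MemLp (f k) (ENNReal.ofReal p) μ) (hg : MemLp g (ENNReal.ofReal p) μ)
    (h : Tendsto (fun k => ∫ z, ‖f k z - g z‖ ^ p ∂μ) atTop (𝓝 0)) :
    ∃ σ : ℕ → ℕ, StrictMono σ ∧ ∀ᵐ z ∂μ, Tendsto (fun k => f (σ k) z) atTop (𝓝 (g z)) := by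
  have hp0 : 0 < p := by linarith
  have h1 := (NN_tendsto hp fun k => (hf k).sub hg).1 h
  have h2 : Tendsto (fun k => eLpNorm (f k - g) (ENNReal.ofReal p) μ) atTop (𝓝 0) := by
    refine (ENNReal.tendsto_toReal_iff (fun k => ((hf k).sub hg).2.ne) ENNReal.zero_ne_top).1 ?_
    rw [ENNReal.toReal_zero]
    exact h1
  exact (tendstoInMeasure_of_tendsto_eLpNorm (by
      rw [Ne, ENNReal.ofReal_eq_zero, not_le]
      exact hp0) (fun k => (hf k).1) hg.1 h2).exists_seq_tendsto_ae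

theorem memLp_smul [NormedSpace ℝ E] {c : α → ℝ} {f : α → E} {q : ℝ≥0∞} (hf : MemLp f q μ)
    (hc : AEStronglyMeasurable c μ) (C : ℝ) (h : ∀ z, |c z| ≤ C) :
    MemLp (fun z => c z • f z) q μ := by
  refine hf.of_le_mul (c := C) (hc.smul hf.1) (Eventually.of_forall fun z => ?_)
  rw [norm_smul, Real.norm_eq_abs]
  exact mul_le_mul_of_nonneg_right (h z) (norm_nonneg _)

end gen

end Pool.Agent.H42.HB
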